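import Pool.Agent.H57.BF.Last

/-!
# The Gyárfás–Sumner conjecture for commutative association schemes, graphs without `K_{t,t,t,t}`

For every forest `F` and every `t ≥ 1` there is a function `f` such that `χ(G) ≤ f(ω(G))` for every
finite graph `G` without an induced `F` and without an induced complete 4-partite graph `K_{t,t,t,t}`
if its vertex set carries a commutative association scheme such that the adjacency of `G` is a union of
classes.  The number of the classes and their valencies are arbitrary, and all clique numbers are
allowed; `t = 1` is the case of the graphs without `K₄`.  More generally, if the vertices of `G` are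
divided into `r` parts such that each part induces such a graph (with schemes which need not be
related), then `χ(G) ≤ f(ω(G)) r`.

Examples: the unions of orbitals of a transitive permutation group with a multiplicity-free
permutation character, in particular all *generously transitive* graphs (any two vertices are
interchanged by an automorphism); the normal Cayley graphs of all finite groups (the connection set is
a union of conjugacy classes), and the Cayley graphs of finite groups `Γ` with connection sets `A` for
which `A ∩ H` is invariant under conjugation by a subgroup `H` of index `r`.

Proof.  Fusing each class with its transpose we can assume that the scheme is symmetric.  Then every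
union of classes `P`, `Q` is a symmetric relation, `|P(x) ∩ Q(y)|` depends only on the class of
`(x, y)`, and `P ∘ Q = Q ∘ P`.  Let `T` be a tree with `m` edges containing `F`, `A` the adjacency.
For a union of classes `X ⊆ A` let `ν_X(x, y) = 1 - |X(x) ∩ X(y)| / d`, where `d = |X(x)|`; this is a
metric on the vertices which depends only on the class of `(x, y)`.

1. (Growth.)  Let `V ⊆ V'` be unions of classes, for each vertex `p` let `X'(p)` be a non-empty subset
   of `A(p) \ V(p)`, and let `V'` contain all `(q, p)` such that a proportion `1 / (m + 1)` of the
   `b ∈ X'(p)` is in `A(q) ∪ V(q)`.  If the first `k` edges of `T` are embedded such that no pair of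
   vertices is in `V'`, then one more edge can be embedded such that no pair is in `V`.  So after `m`
   steps from the diagonal either `T` is an induced subgraph or `A ⊆ V`.
2. The relations `V` are covered by boundedly many unions of classes `W` such that each `W(q)` is
   contained in boundedly many small balls of a metric `ν` with `|{ν ≤ 1/8}| ≤ K |{ν ≤ κ}|`, the
   metric being the discrete one or one of the `ν_X`.  Let `X = A \ V`.  If `X(p)` has a positive
   proportion in such a ball, then `X'(p)` is this part; the new relations are
   `{(q, p) : |X(p) ∩ W(q)| ≥ c d}` and `R ∘ R`, where `R = {(p, u) : X(p) has c d elements in the ball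
   of radius r about u}`, and they are covered by few balls because `R` is symmetric.
3. Otherwise `X' = X`, and the new metric is `ν_X`.  Call a class in `X` rich if for `(z, x)` in this
   class a positive proportion of the `w ∈ X(x)` is light, that is, not adjacent to `z` and with
   `|X(z) ∩ X(w)| < β d`.  If nearly all of `X` is rich, then `T` can be embedded vertex by vertex.
   Otherwise for a fixed vertex `p` there is a positive proportion of the `q ∈ X(p)` such that
   `X(q)` is nearly contained in the set of the `O(d)` vertices `w` with `|X(p) ∩ X(w)| ≥ β d`; as
   the neighbourhoods have bounded Vapnik–Chervonenkis dimension, the packing lemma gives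
   `d = O(|{ν_X ≤ κ}|)`.
4. The graph `A_ρ` of the adjacent pairs with `ν_X ≤ ρ` has a bounded chromatic number for some
   `ρ > 0` which depends only on `T` and `t`.  By Ramsey's theorem we can assume that `K_{t,t,t,t}` is
   not a subgraph (induced or not).  Let `R = 1 / (32 t)`.
   (i) If a `K_{t,t}` with vertex set `Q ∋ u` is a subgraph of `A_R`, let `Z` be the set of the common
   neighbours `z ∈ X(u)` of `Q` in `X`; nearly all `z ∈ X(u)` are in `Z`.  By the commutativity
   `∑_{z ∈ X(u)} |A_ρ(z) ∩ X(u)| = ∑_{w ∈ A_ρ(u)} |X(u) ∩ X(w)| ≥ (1 - ρ) |A_ρ(u)| d`.  So the average
   degree of `A_ρ` on `Z` is at least `|A_ρ(u)| / 2`.  If it is large, then `A_ρ` contains in `Z` a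
   large tree as a subgraph, and since `K_{t,t}` is not a subgraph of the graph induced by `Z` (with
   `Q` this gives a `K_{t,t,t,t}`), the latter has an induced `T` (a theorem of the starting library,
   `AddedBicliqueFreeGraphs`).  So `A_ρ` has a bounded degree, or `K_{t,t}` is not a subgraph of `A_R`.
   (ii) In the second case, if a large tree `T'` is an induced subgraph of `A_ρ`, `|T'| ρ ≤ R`, then
   all the edges of `G` between its vertices are in `A_R`, and again by `AddedBicliqueFreeGraphs` `G`
   has an induced `T`.  So `T'` is not an induced subgraph of the graph `A_ρ`, and `K_{t,t}` is not a
   subgraph; its chromatic number is bounded (Kierstead–Penrice).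
5. So `A` is covered by boundedly many relations `W` as in 2.  The vertices are divided into regions
   contained in balls of radius `2 κ`; the edges inside the regions are in `A_ρ` and are coloured by 4,
   and by `W ∘ B = B ∘ W` for the balls `B` the regions joined by an edge in `W` form a graph of bounded
   degree.  The product of the colourings is a proper colouring.
-/

namespace Pool.Agent.Results.MP_763321_co.AssociationSchemes

open Pool.Agent.H57.AS (CommScheme)

theorem result :
    ∀ (m : ℕ) (F : SimpleGraph (Fin m)), F.IsAcyclic → ∀ t : ℕ, ∃ f : ℕ → ℕ,
      ∀ (V : Type) [Finite V] (G : SimpleGraph V) (r : ℕ) (part : V → Fin r),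
        (∀ i : Fin r,
          -- the part carries a commutative association scheme, the adjacency is a union of classes
          (∃ (I : Type) (cl : {v : V // part v = i} → {v : V // part v = i} → I),
            CommScheme cl ∧ ∀ x y x' y', cl x y = cl x' y' → G.Adj x y → G.Adj x' y') ∨
          -- the part is generously transitive
          (∀ x y : {v : V | part v = i}, ∃ σ : G.induce {v : V | part v = i} ≃g
            G.induce {v : V | part v = i}, σ x = y ∧ σ y = x)) →
        -- no induced `K_{t,t,t,t}` (for `t = 1`: no `K₄`), no induced `F`
        ¬ (SimpleGraph.completeEquipartiteGraph 4 t).IsIndContained G →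
        ¬ F.IsIndContained G → G.Colorable (f G.cliqueNum * r) := by
  intro m F hF t
  exact Pool.Agent.H57.BF.gs_parts4 F hF t

end Pool.Agent.Results.MP_763321_co.AssociationSchemes
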