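import Pool.Agent.H57.FK.Parts

/-!
# The Gyárfás–Sumner conjecture for unions of few classes of commutative association schemes

For every forest `F` and every `s` there is a function `f` such that `χ(G) ≤ f(ω(G))` for every finite
graph `G` without an induced `F` which is a union of at most `s` classes of a commutative association
scheme.  The scheme may have any number of classes and the valencies of the classes are arbitrary (they
need not be comparable); all clique numbers are allowed.  More generally the vertices of `G` may be
divided into `r` parts such that each part induces such a graph (with schemes which need not be
related); then `χ(G) ≤ f(ω(G)) r`.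

Examples: unions of at most `s` orbitals of transitive permutation groups with a multiplicity-free
permutation character, in particular generously transitive graphs with at most `s` orbits on the edges;
unions of at most `s` distance classes of distance-regular graphs; normal Cayley graphs of finite
groups, the connection set being a union of at most `s` conjugacy classes.

Proof.  In the proof for clique number 3 and any number of classes (`AssociationSchemes` of this run for
`t = 1`) the clique number is used only to show that adjacent vertices are far in the metrics
`ν_X(x, y) = 1 - |X(x) ∩ X(y)| / |X(x)|`, where `X` is a union of classes contained in the adjacency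
`A`.  For larger clique numbers this fails: let `A_ρ` be the set of the adjacent pairs with
`ν_X ≤ ρ`.  A clique of `A_ρ` with `k + 1 < 1 / ρ` vertices has a common neighbour in `X`, so the clique
number of `A_ρ` is smaller than that of `A`.  Let `T` be a tree with `m` edges containing `F`.  As `A`
has at most `s` classes there is a `ρ ≥ ρ₀(s, m, ω) > 0` with `A_((m + 1) ρ) = A_ρ`, and then an
induced copy of `T` in the graph `A_ρ` is induced in `G`, because any two of its vertices are at
distance at most `m ρ`.  By induction on the clique number `A_ρ` can be coloured with boundedly many
colours, and `ν_X > ρ` on the rest of `A`, which suffices for the colouring of the regions in the proof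
of `AssociationSchemes`.
-/

namespace Pool.Agent.Results.MP_763321_co.FewClasses

open Pool.Agent.H57.AS (CommScheme)

theorem result :
    ∀ (m : ℕ) (F : SimpleGraph (Fin m)), F.IsAcyclic → ∀ s : ℕ, ∃ f : ℕ → ℕ,
      ∀ (V : Type) [Finite V] (G : SimpleGraph V) (r : ℕ) (part : V → Fin r),
        (∀ i : Fin r,
          -- a commutative association scheme on the part, the adjacency is a union of at most `s` classes
          (∃ (I : Type) (cl : {v : V // part v = i} → {v : V // part v = i} → I), CommScheme cl ∧
            (∀ x y x' y', cl x y = cl x' y' → G.Adj x y → G.Adj x' y') ∧
            {c | ∃ x y : {v : V // part v = i}, G.Adj x y ∧ cl x y = c}.ncard ≤ s) ∨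
          -- the part is generously transitive with at most `s` orbits of edges
          ((∀ x y : {v : V | part v = i}, ∃ σ : G.induce {v : V | part v = i} ≃g
            G.induce {v : V | part v = i}, σ x = y ∧ σ y = x) ∧
            ∃ E : Finset ({v : V | part v = i} × {v : V | part v = i}), E.card ≤ s ∧
              ∀ x y : {v : V | part v = i}, G.Adj x y → ∃ p ∈ E,
                ∃ σ : G.induce {v : V | part v = i} ≃g G.induce {v : V | part v = i},
                  σ p.1 = x ∧ σ p.2 = y)) →
        ¬ F.IsIndContained G → G.Colorable (f G.cliqueNum * r) := by
  intro m F hF s
  exact Pool.Agent.H57.FK.gs_parts F hF s

end Pool.Agent.Results.MP_763321_co.FewClasses
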