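import Pool.Agent.H57.FC.Col
import Pool.Agent.H57.FC.Sub
import Pool.Agent.H57.FC.Neumann

/-!
# The Gyárfás–Sumner conjecture for Cayley graphs of finite groups, clique number 3:
# elements with few conjugates, and groups in which a positive proportion of the pairs commutes

Let `F` be a forest.

1. For every `k` there is `C` such that for every finite group `Γ`, subgroup `H` and set `A ⊆ Γ` for
   which every element of `A ∩ H` has at most `k` conjugates in `H` (nothing is assumed on the rest of
   `A`), the Cayley graph of `Γ` with connection set `A` is `C [Γ : H]`-colourable if it contains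
   neither `K₄` nor an induced `F`.
2. For every `ε > 0` there is `C` such that every Cayley graph (with any connection set) of a finite
   group `Γ` in which at least `ε |Γ|²` of the ordered pairs commute is `C`-colourable if it contains
   neither `K₄` nor an induced `F`.

In 1. with `k = 1` the elements of `A ∩ H` are central in `H`; the starting result
`AbelianCayley` is the case of an abelian group `Γ = H`.  In 2. all connection sets are allowed; the
groups include those with an abelian subgroup of bounded index, but also for example all groups whose
commutator subgroup has bounded order (such as the extraspecial groups).  The sets `A` are not assumed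
to be invariant under conjugation, so that this is not contained in the theorem
`AssociationSchemes`.

Proof.  1. It is enough to consider `H = Γ`.  Let `T` be a tree with `m` edges containing `F`, `A`
symmetric.  For a symmetric `X ⊆ A` let `ν_X(g) = |g X \ X| / |X|`, a norm on `Γ`, in general not
invariant under conjugation.

1a. (All groups, no assumption on conjugates.)  If no translate of `X` has a positive proportion in
   `A \ X`, then `T` is an induced subgraph or `|X| = O(|{ν_X ≤ κ}|)`.  For call a pair `(x, y) ∈ X²`
   light if `|X ∩ x y X| < β |X|`.  If for almost all `x` a positive proportion of the pairs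
   `(x, y)` is light, then a random labelling of the edges of `T` such that consecutive labels
   form light pairs and siblings are not adjacent gives an induced copy of `T`.  Otherwise for a
   positive proportion of the `x` the sets `x X` are almost contained in a set of `O(|X|)` elements,
   and as the neighbourhoods have bounded Vapnik–Chervonenkis dimension the packing lemma gives many
   near-periods.
1b. (All groups.)  `ν_X ≥ 1/3` on `A`: otherwise there is `s ∈ X` with `s a, a⁻¹ s, a⁻¹ s a ∈ X`, and
   `1, a, s, s a` is a clique.
1c. A growth argument with `m` steps, as for `AssociationSchemes`, gives that `A` is covered by boundedly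
   many translates `y B` of balls `B` of norms `ν` with `|{ν ≤ 1/4}| ≤ K |{ν ≤ κ}|`, where `y` and all
   elements of `B` have boundedly many conjugates.  Here, and in the colouring of the edges with
   directions in `y B`, one uses that `B y` is covered by boundedly many left translates of `B`, because
   it is contained in the union of the sets `b y C(y)`, with `b` in a set of representatives of the
   left cosets of the centraliser `C(y)` that meet `B`.

2. Let `k > 2 / ε`.  At least `|Γ| / k` elements have at most `k` conjugates.  As a product of elements
   with at most `k` and `l` conjugates has at most `k l` conjugates, there is `i ≤ k` such that the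
   elements with at most `k ^ (2 ^ (2 i))` conjugates are closed under multiplication.  They form a
   subgroup of index at most `k`, to which 1. is applied.
-/

namespace Pool.Agent.Results.MP_763321_co.FewConjugates

theorem result :
    ∀ (m : ℕ) (F : SimpleGraph (Fin m)), F.IsAcyclic →
      (∀ k : ℕ, ∃ C : ℕ, ∀ (Γ : Type) [Group Γ] [Finite Γ] (H : Subgroup Γ) (A : Set Γ),
        (∀ a : H, (a : Γ) ∈ A → (Subgroup.centralizer {a} : Subgroup H).index ≤ k) →
        (SimpleGraph.mulCayley A).CliqueFree 4 →
        ¬ F.IsIndContained (SimpleGraph.mulCayley A) →
        (SimpleGraph.mulCayley A).Colorable (C * H.index)) ∧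
      (∀ ε : ℚ, 0 < ε → ∃ C : ℕ, ∀ (Γ : Type) [Group Γ] [Finite Γ] (A : Set Γ),
        ε ≤ commProb Γ →
        (SimpleGraph.mulCayley A).CliqueFree 4 →
        ¬ F.IsIndContained (SimpleGraph.mulCayley A) →
        (SimpleGraph.mulCayley A).Colorable C) := by
  intro m F hF
  have h1 : ∀ k : ℕ, ∃ C : ℕ, ∀ (Γ : Type) [Group Γ] [Finite Γ] (H : Subgroup Γ) (A : Set Γ),
        (∀ a : H, (a : Γ) ∈ A → (Subgroup.centralizer {a} : Subgroup H).index ≤ k) →
        (SimpleGraph.mulCayley A).CliqueFree 4 →
        ¬ F.IsIndContained (SimpleGraph.mulCayley A) →
        (SimpleGraph.mulCayley A).Colorable (C * H.index) := by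
    intro k
    obtain ⟨C, hC⟩ := Pool.Agent.H57.FC.gs_fc F hF k
    refine ⟨C, ?_⟩
    intro Γ _ _ H A hA hK hind
    apply Pool.Agent.H57.FC.sub_col
    apply hC H {a : H | (a : Γ) ∈ A}
    · intro a ha
      exact hA a ha
    · exact SimpleGraph.CliqueFree.comap ⟨(Pool.Agent.H57.FC.subEmb H A).toCopy⟩ hK
    · exact ⟨fun f => hind ⟨f.trans (Pool.Agent.H57.FC.subEmb H A)⟩⟩
  refine ⟨h1, ?_⟩
  intro ε hε
  obtain ⟨k, r, hkr⟩ := Pool.Agent.H57.FC.comm_sub ε hε
  obtain ⟨C, hC⟩ := h1 k
  refine ⟨C * r, ?_⟩
  intro Γ _ _ A hΓ hK hind
  obtain ⟨H, hH1, hH2⟩ := hkr Γ hΓ
  refine (hC Γ H A ?_ hK hind).mono (Nat.mul_le_mul_left _ hH2)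
  intro a _
  have h2 := hH1 (a : Γ) a.2
  unfold Pool.Agent.H57.FC.idx at h2
  refine le_trans ?_ h2
  have h3 : (Subgroup.centralizer {a} : Subgroup H) =
      (Subgroup.centralizer {(a : Γ)} : Subgroup Γ).subgroupOf H := by
    ext x
    rw [Subgroup.mem_centralizer_singleton_iff, Subgroup.mem_subgroupOf,
      Subgroup.mem_centralizer_singleton_iff]
    constructor
    · intro h
      exact_mod_cast congrArg (fun z : H => (z : Γ)) h
    · intro h
      exact Subtype.ext h
  rw [h3]
  have h4 := Subgroup.relIndex_le_of_le_right (H := (Subgroup.centralizer {(a : Γ)} : Subgroup Γ))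
    (le_top : H ≤ ⊤) (by
      rw [Subgroup.relIndex_top_right]
      exact Subgroup.index_ne_zero_of_finite)
  rw [Subgroup.relIndex_top_right] at h4
  exact h4

end Pool.Agent.Results.MP_763321_co.FewConjugates
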